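import Pool.Agent.H936.Y.FinZ
import Pool.Agent.H936.Z.Cmf

/-!
# The hyperbolic analytic subspace conjecture for the curves `y² = f(x) (x - c / b)` near special points

**The problem.** Let `S = Γ \ X` be a Shimura variety, `o ∈ X` a special point and `z ∈ X` a point with `[z] ∈ S(ℚ̄)`, in the
Harish-Chandra realisation `X = 𝒟 ⊆ T_o X`. If `z` is in a subspace `V` of `T_o X` which is rational for the arithmetic
structure, is there a subspace `V' ⊆ V` with `z ∈ V'` which is rational for both structures, for example the tangent space of a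
Shimura subvariety which contains `[z]` and `[o]`?

Here `S = 𝔸_g ^ N`, `z = (z_1, …, z_N)`, where `z_j` is the point of the Jacobian of the curve

  `C_j : y² = f_j(x) (x - c_j / b_j)` of genus `g ≥ 1`,

and `o = (o_1, …, o_N)`, where `o_j` is the point of the Jacobian of the curve `C_{j,0} : y² = x f_j(x)`.

**The coordinates.** The points of the Siegel space are given by Hodge filtrations `F^1 ⊆ H^1(ℂ) = ℂ ^ {2g}`. The tangent space at
`o_j` consists of the operators `N` in the symplectic Lie algebra which map `F^1_o` to its complex conjugate `F̄^1_o` and are zero on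
`F̄^1_o`; and the Harish-Chandra coordinate of `z` is the operator `N` with `F^1_z = (1 + N) F^1_o = exp(N) F^1_o`. A *frame*
`F_j = (F' | F'')` consists of bases of `F^1_o` and of `F̄^1_o`; then `N F' = F'' y`, and the entries of the `g × g`
matrix `y` are coordinates for `N`. If `F'` is a basis of the differentials of the first kind over a number field, and `F''` is
such a basis of `H^1_dR / F^1`, then these are coordinates for the arithmetic structure of `T_o X`, since the
tangent space of the moduli space is `Hom^sym(F^1, H^1_dR / F^1)` (Kodaira and Spencer). For the Jacobian of a curve `y² = F(x)` the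
space `F^1` is spanned by the periods of the differentials `x^i dx / y`, `i < g`, the first `g` columns of `curvePeriods`.

**Theorem.** For all `g`, `N`, `D`, `s` there is `E` such that the following holds for all integers `H ≥ 2`, `h`, `w` and
`b₀ ≥ (H + h + w)^E`, **all** `f_1, …, f_N ∈ ℤ[x]` with coefficients of absolute value at most `H`, such that `x f_j(x)` is monic
of degree `2 g + 1` with distinct real roots, **all** integers `c_j ≠ 0` with `|c_j| ≤ h`, **all** `b_j` in `[b₀, b₀ + w]` with
`|b_i - b_j| ≥ (H + h)^E` for `i ≠ j`: the branch points of `C_j` are real and distinct, and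

1. let `F_j` be frames of *arbitrary* points `o_j`, and let `y` be the coordinate of `z`. If the entries of `F_j⁻¹ P_{j,0}`, where
   `P_{j,0}` is the period matrix of `C_{j,0}`, are algebraic over the field generated by `s` numbers `u_1, …, u_s`, then each
   subspace `V` with `y ∈ V` which is given by linear equations with coefficients which are algebraic over `ℚ(u)` (with equations
   of degree at most `D`) satisfies `dim (V ∩ T) ≥ dim T - s`, where `T = T_o X` is the tangent space;
2. let `o_j` be the point of `C_{j,0}`, which has complex multiplication (`HasCM`), and let `F_j` be the arithmetic frame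
   (`CentreFrame`). Then each subspace `V` with `y ∈ V` which is given by linear equations with coefficients in number fields of
   degree at most `D` contains `T`. For `g = 1` and even `f_j = x² - k_j` the complex multiplication (by `i`) is proved here.
   There are examples for all `g`, see `HasCM`: `f = x ^ 4 - 30 x ^ 2 + 81` for `g = 2`.

So the answer to Q1 is positive for these `z`, `o`, `V`, with `V' = V = T_o X`: the point `z` is not in a proper subspace. For `g = 1`
this means that the Harish-Chandra coordinates of the points of the upper half plane which are given by the elliptic curves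
`y² = (x² - k_j) (x - c_j / b_j)` are linearly independent over all number fields of degree at most `D`.

**Comparison.** In my `NearSpecialPoints` (same problem) the points are given by abstract families: matrices of G-functions, bounds
for the differential systems, the sizes and the denominators, and the symmetries (monodromy) are hypotheses. Here there are
no such hypotheses: all of them are proved for the curves `C_j`, uniformly in `f`, also for `g = 1`.

**Proof** (`Pool/Agent/H936/Z`, `Y`, `Pool/Agent/H885`). In the ultraproduct `ℂ^*` of a sequence of counterexamples, for each tuple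
of operators in the symplectic Lie algebra there is a derivation `δ` of `ℂ^*` over `ℚ^*` which moves the values of the
G-functions in the direction of this tuple: by the theorem of Siegel, Chudnovsky, Bombieri and André on linear independence of
values of G-functions in its uniform version for several families and points (`H885.curveP`) all relations of bounded
degree between the values are functional relations. If `δ` is zero on the `u_i`, then it is zero on `F_j⁻¹ P_{j,0}` and on the
coefficients of `V`, and `δ(y)` is the direction itself: so this direction satisfies the equations of `V` (`Z/Fin`). In part 2 the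
matrix `F_j⁻¹ P_{j,0}` is algebraic, since the frame is given by the solution of a Sylvester equation over the number field
(`Z/Cmf`). The period matrices of the curves `y² = f(x) (x - t)` are of the form `P_0 Z(t)` with matrices `Z` of G-functions, with
uniform bounds, and the Picard-Lefschetz transformations generate a group with the Lie algebra `𝔰𝔭` (`Y`, library `Y118`).
-/

set_option autoImplicit false
set_option linter.unusedSectionVars false

open Filter
open scoped Matrix

noncomputable section

namespace Pool.Agent.Results.MP_1e27bd_ag.HyperellipticNearCM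

/-! ### Hyperelliptic curves -/

section curves

/-- `e_0 < e_1 < … < e_n` are the roots of `F`, `F = ∏ (x - e_i)`: the finite branch points of the curve `y² = F(x)` -/
def BranchPoints {n : ℕ} (F : Polynomial ℝ) (e : Fin n → ℝ) : Prop :=
  StrictMono e ∧ F = ∏ i, (Polynomial.X - Polynomial.C (e i))

/-- the period `2 ∫ x^j dx / y` of the curve `y² = ∏ (x - e_i)`, the integral over the segment between `e_l` and `e_(l+1)` -/
def curvePeriod {n : ℕ} (e : Fin (n + 1) → ℝ) (l j : Fin n) : ℂ :=
  2 * ∫ x in (e l.castSucc)..(e l.succ), (x : ℂ) ^ (j : ℕ) / (((∏ i, (x - e i) : ℝ) : ℂ) ^ (1 / 2 : ℂ))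

/-- the period matrix of the curve `y² = ∏ (x - e_i)`, `0 ≤ i ≤ n = 2 g`: the rows are the cycles over the segments between
the branch points, the columns are the forms `x^j dx / y`, `j < n`, a basis of `H^1_dR` -/
def curvePeriods {n : ℕ} (e : Fin (n + 1) → ℝ) : Matrix (Fin n) (Fin n) ℂ := Matrix.of (curvePeriod e)

/-- the intersection form of the cycles, up to a factor: `2 (-1)^r` at `(r, s)` with `|r - s| = 1` -/
def polB (n : ℕ) : Matrix (Fin n) (Fin n) ℚ :=
  Matrix.of fun r s => if (r : ℕ) = s + 1 ∨ (s : ℕ) = r + 1 then 2 * (-1) ^ (r : ℕ) else 0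

end curves

/-! ### Numbers -/

/-- `x` is contained in a field of degree at most `D` over `ℚ` -/
def SmallDegree (D : ℕ) (x : ℂ) : Prop := ∃ K : Subfield ℂ, FiniteDimensional ℚ K ∧ Module.finrank ℚ K ≤ D ∧ x ∈ K

/-- `y` satisfies an equation `P(u, y) = 0` where `P` has rational coefficients and total degree at most `D` and `P(u, Y)` is
not the zero polynomial -/
def AlgebraicOver (D : ℕ) {s : ℕ} (u : Fin s → ℂ) (y : ℂ) : Prop :=
  ∃ P : MvPolynomial (Option (Fin s)) ℚ, P.totalDegree ≤ D ∧
    MvPolynomial.aeval (fun o : Option (Fin s) => o.elim y u) P = 0 ∧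
    ∃ y' : ℂ, MvPolynomial.aeval (fun o : Option (Fin s) => o.elim y' u) P ≠ 0

/-- Numbers which are algebraic over the field generated by the `u_i` have this property for some `D`. -/
theorem algebraicOver_of_isAlgebraic {s : ℕ} {u : Fin s → ℂ} {y : ℂ}
    (h : IsAlgebraic (IntermediateField.adjoin ℚ (Set.range u)) y) : ∃ D, AlgebraicOver D u y :=
  Pool.Agent.H936.V.ag_of_alg h

/-! ### Points, frames and coordinates -/

section points
variable {g N : ℕ}

/-- square matrices of size `2 g` -/
abbrev Mat (g : ℕ) : Type := Matrix (Fin (2 * g)) (Fin (2 * g)) ℂ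

/-- the first `g` indices -/
def fst (g : ℕ) (i : Fin g) : Fin (2 * g) := ⟨i, by omega⟩

/-- the last `g` indices -/
def snd (g : ℕ) (i : Fin g) : Fin (2 * g) := ⟨g + i, by omega⟩

/-- the first `g` columns -/
def left (P : Mat g) : Matrix (Fin (2 * g)) (Fin g) ℂ := P.submatrix id (fst g)

/-- the last `g` columns -/
def right (P : Mat g) : Matrix (Fin (2 * g)) (Fin g) ℂ := P.submatrix id (snd g)

/-- `F` is a frame of a point `o`: the first `g` columns are a basis of the space `F^1_o ⊆ ℂ^{2g}`, and the last `g` columns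
are a basis of the complex conjugate space, which is a complement. -/
structure IsFrame (F : Mat g) : Prop where
  /-- the columns are linearly independent -/
  isUnit : IsUnit F
  /-- the complex conjugate of `F^1_o` is the span of the last `g` columns -/
  conj : ∃ S : Matrix (Fin g) (Fin g) ℂ, (left F).map (starRingEnd ℂ) = right F * S

/-- The operator `N` on `ℂ^{2g}` which maps the first `g` columns `F'` of the frame to `F'' y`, where `F''` are the last `g`
columns, and is zero on these: an element of `Hom (F^1_o, F̄^1_o)`. -/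
noncomputable def operator (F : Mat g) (y : Matrix (Fin g) (Fin g) ℂ) : Mat g :=
  right F * y * (F⁻¹).submatrix (fst g) id

theorem operator_left {F : Mat g} (hF : IsUnit F) (y : Matrix (Fin g) (Fin g) ℂ) : operator F y * left F = right F * y := by
  have h1 := Matrix.nonsing_inv_mul _ ((Matrix.isUnit_iff_isUnit_det _).1 hF)
  have h2 : (F⁻¹).submatrix (fst g) id * left F = 1 := by
    ext i j
    have h3 := congrFun (congrFun h1 (fst g i)) (fst g j)
    rw [Matrix.mul_apply] at h3 ⊢
    refine Eq.trans h3 ?_
    rw [Matrix.one_apply, Matrix.one_apply]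
    by_cases hij : i = j
    · rw [if_pos hij, if_pos (congrArg _ hij)]
    · rw [if_neg hij, if_neg (show ¬ fst g i = fst g j from fun h => hij (Pool.Agent.H936.Z.f₁_inj h))]
  unfold operator
  rw [Matrix.mul_assoc, h2, Matrix.mul_one]

theorem operator_right {F : Mat g} (hF : IsUnit F) (y : Matrix (Fin g) (Fin g) ℂ) : operator F y * right F = 0 := by
  have h1 := Matrix.nonsing_inv_mul _ ((Matrix.isUnit_iff_isUnit_det _).1 hF)
  have h2 : (F⁻¹).submatrix (fst g) id * right F = 0 := by
    ext i j
    have h3 := congrFun (congrFun h1 (fst g i)) (snd g j)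
    rw [Matrix.mul_apply] at h3 ⊢
    refine Eq.trans h3 ?_
    rw [Matrix.one_apply, if_neg (show ¬ fst g i = snd g j from fun h => Pool.Agent.H936.Z.f₁_ne h)]
    rfl
  unfold operator
  rw [Matrix.mul_assoc, h2, Matrix.mul_zero]

/-- The tangent space of the product of the Siegel spaces at `(o_1, …, o_N)`, in the coordinates of the frames `F_j`: the
tuples of matrices for which the operators are in the Lie algebra of the symplectic group of the intersection form. -/
def Tangent (F : Fin N → Mat g) : Submodule ℂ (Fin N → Matrix (Fin g) (Fin g) ℂ) where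
  carrier := {y | ∀ j, operator (F j) (y j) * (polB (2 * g)).map (fun x : ℚ => (x : ℂ)) +
    (polB (2 * g)).map (fun x : ℚ => (x : ℂ)) * (operator (F j) (y j))ᵀ = 0}
  zero_mem' j := by
    unfold operator
    rw [Pi.zero_apply, Matrix.mul_zero, Matrix.zero_mul, Matrix.zero_mul, Matrix.transpose_zero, Matrix.mul_zero, add_zero]
  add_mem' {a b} ha hb j := by
    have h1 := ha j
    have h2 := hb j
    have h3 : operator (F j) ((a + b) j) = operator (F j) (a j) + operator (F j) (b j) := by
      unfold operator
      rw [Pi.add_apply, Matrix.mul_add, Matrix.add_mul]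
    rw [h3, Matrix.add_mul, Matrix.transpose_add, Matrix.mul_add, add_add_add_comm, h1, h2, add_zero]
  smul_mem' c a ha j := by
    have h1 := ha j
    have h3 : operator (F j) ((c • a) j) = c • operator (F j) (a j) := by
      unfold operator
      rw [Pi.smul_apply, Matrix.mul_smul, Matrix.smul_mul]
    rw [h3, Matrix.smul_mul, Matrix.transpose_smul, Matrix.mul_smul, ← smul_add, h1, smul_zero]

/-- `y` is the Harish-Chandra coordinate, for the frame `F` of `o`, of the point `z` with the period matrix `P`: the space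
`F^1_z`, which is spanned by the first `g` columns of `P`, is the image of `F^1_o` under `1 + N`, where `N` is the operator with
the matrix `y`; that is, the columns of `F' + N F' = F' + F'' y` are combinations of the first `g` columns of `P`. -/
def IsCoordinate (F P : Mat g) (y : Matrix (Fin g) (Fin g) ℂ) : Prop :=
  ∃ R : Matrix (Fin g) (Fin g) ℂ, left P * R = left F + right F * y

/-- The subspace given by the linear equations `∑ c_{jkl} y_{jkl} = 0` for all `c` in `L`. -/
def Solutions (L : Set (Fin N → Matrix (Fin g) (Fin g) ℂ)) : Submodule ℂ (Fin N → Matrix (Fin g) (Fin g) ℂ) where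
  carrier := {y | ∀ c ∈ L, ∑ j, ∑ k, ∑ l, c j k l * y j k l = 0}
  zero_mem' c hc := by simp
  add_mem' {a b} ha hb c hc := by
    have h1 := ha c hc
    have h2 := hb c hc
    simp only [Pi.add_apply, Matrix.add_apply, mul_add, Finset.sum_add_distrib]
    rw [h1, h2, add_zero]
  smul_mem' x a ha c hc := by
    have h1 := ha c hc
    have h2 : ∀ j k l, c j k l * (x • a) j k l = x * (c j k l * a j k l) := by
      intro j k l
      rw [Pi.smul_apply, Matrix.smul_apply, smul_eq_mul]
      ring
    simp only [h2, ← Finset.mul_sum]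
    rw [h1, mul_zero]

/-- Complex multiplication: there is a rational matrix `α`, an endomorphism in terms of its action on `H^1`, with `2 g` different
eigenvalues, which respects the de Rham structure over a field `K` of degree at most `D` (its matrix `C⁻¹ α C` on `H^1_dR` has
entries in `K`) and the Hodge filtration (this matrix maps the span of the first `g` basis vectors to itself).

Examples for all `g`: the real forms `y² = x f(x)` of `y² = x ^ (2 g + 2) - 1`, the branch points of which are the point at
infinity and the numbers `c tan (π k / (2 g + 2))`, `|k| ≤ g` (for `c = 2 g + 2` the coefficients of `f` are integers). The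
rotation of order `2 g + 2` has on `H^1` the `2 g` different eigenvalues `ζ ^ k`, `k ≠ 0`, `k ≠ g + 1`. For `g = 2` and `c = 3`
this is `f = x ^ 4 - 30 x ^ 2 + 81`, and `α` has, for the cycles of `curvePeriods`, the rows `(0, 1, 0, 0)`, `(0, 0, -1, 0)`,
`(0, 0, 0, 1)`, `(1, 0, -1, 0)`, with the characteristic polynomial `t ^ 4 + t ^ 2 + 1` and `K = ℚ(√3, i)`, of degree `4`.
(These examples are not used in the proofs.) -/
def HasCM (D : ℕ) (C : Mat g) : Prop :=
  ∃ K : Subfield ℂ, FiniteDimensional ℚ K ∧ Module.finrank ℚ K ≤ D ∧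
    ∃ α : Matrix (Fin (2 * g)) (Fin (2 * g)) ℚ, α.charpoly.Separable ∧
      (∀ i j, (C⁻¹ * α.map (fun x : ℚ => (x : ℂ)) * C) i j ∈ K) ∧
      ∀ i j, (C⁻¹ * α.map (fun x : ℚ => (x : ℂ)) * C) (snd g i) (fst g j) = 0

/-- `F` is the frame, of the point given by `C`, for the arithmetic structure: the first `g` columns are those of `C` (the
differentials of the first kind), and the last `g` columns are, up to combinations of the first ones, those of `C` (a basis of
`H^1_dR / F^1`). -/
def CentreFrame (C F : Mat g) : Prop :=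
  left F = left C ∧ ∃ b : Matrix (Fin g) (Fin g) ℂ, right F = right C + left C * b

end points

/-! ### Auxiliary lemmas -/

section
variable {g N : ℕ}

theorem left_eq (P : Mat g) : left P = P * Pool.Agent.H936.Z.i₁ g ℂ := (Pool.Agent.H936.Z.mul_i₁ P).symm

theorem right_eq (P : Mat g) : right P = P * Pool.Agent.H936.Z.i₂ g ℂ := (Pool.Agent.H936.Z.mul_i₂ P).symm

theorem rows_eq (P : Mat g) : P.submatrix (fst g) id = (Pool.Agent.H936.Z.i₁ g ℂ)ᵀ * P := by
  have h1 := Pool.Agent.H936.Z.mul_i₁ (g := g) Pᵀ
  have h2 := congrArg Matrix.transpose h1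
  rw [Matrix.transpose_mul, Matrix.transpose_transpose] at h2
  exact h2.symm

theorem operator_eq (F : Mat g) (y : Matrix (Fin g) (Fin g) ℂ) : operator F y =
    F * (Pool.Agent.H936.Z.i₂ g ℂ * y * (Pool.Agent.H936.Z.i₁ g ℂ)ᵀ) * F⁻¹ := by
  unfold operator
  rw [right_eq, rows_eq]
  simp only [Matrix.mul_assoc]

theorem cm_eq (α : Matrix (Fin (2 * g)) (Fin (2 * g)) ℚ) :
    α.map (fun x : ℚ => (x : ℂ)) = Pool.Agent.Y119.HY.cm α := by
  ext i j
  rw [Pool.Agent.Y119.HY.cm_apply]
  rfl

end

section
variable {g N : ℕ}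

theorem tangent_eq (F : Fin N → Mat g) : Tangent F = Pool.Agent.H936.Z.Tan
    (Submodule.pi Set.univ fun _ => Pool.Agent.Helper880_LF.spS (Pool.Agent.Y119.HY.cm (polB (2 * g))⁻¹)) F := by
  have hHd : IsUnit (polB (2 * g)).det := Pool.Agent.H936.Y.bm_unit (even_two_mul g)
  ext y
  rw [Pool.Agent.H936.Z.mem_Tan, Submodule.mem_pi]
  show (∀ j, _) ↔ _
  refine forall_congr' fun j => ?_
  rw [← Pool.Agent.H936.SL.cm_inv hHd, Pool.Agent.H936.Z.mem_sp (Pool.Agent.H936.G.cm_unit hHd), ← operator_eq, cm_eq]
  simp

/-- for `g = 1` and even `f` the curve `y² = x f(x)` has complex multiplication by `i` -/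
theorem cm_even {D : ℕ} (hD : 2 ≤ D) {a : Fin (2 * 1) → ℝ} (ha : StrictMono a) (har : ∀ i, a (Fin.rev i) = -a i)
    {m : Fin (2 * 1 + 1)} (h0 : Pool.Agent.Y118.HP.InGap a m 0) (hC : IsUnit (Pool.Agent.Y118.HP.CM a m 0).det) :
    HasCM (g := 1) D (Pool.Agent.Y118.HP.CM a m 0) := by
  obtain ⟨K, hK, hK2, hKI⟩ := Pool.Agent.H936.Y.exists_Qi
  have h1 := Pool.Agent.H936.Y.CM_aut (g := 1) ha har h0
  have h2 : (Pool.Agent.Y118.HP.CM a m 0)⁻¹ * (Pool.Agent.H936.Y.alp (2 * 1)).map (fun x : ℚ => (x : ℂ)) *
      Pool.Agent.Y118.HP.CM a m 0 = Pool.Agent.H936.Y.del (2 * 1) := by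
    rw [cm_eq, Matrix.mul_assoc, ← h1, ← Matrix.mul_assoc, Matrix.nonsing_inv_mul _ hC, Matrix.one_mul]
  refine ⟨K, hK, hK2.trans hD, Pool.Agent.H936.Y.alp (2 * 1), ?_, fun i j => ?_, fun i j => ?_⟩
  · have h3 : (Pool.Agent.H936.Y.alp (2 * 1)).charpoly = Polynomial.X ^ 2 + 1 := by
      have h4 := Matrix.charpoly_fin_two (Pool.Agent.H936.Y.alp 2)
      rw [Matrix.trace_fin_two, Matrix.det_fin_two] at h4
      refine h4.trans ?_
      simp [Pool.Agent.H936.Y.alp]
    rw [h3]
    refine ⟨1, -Polynomial.C (1 / 2) * Polynomial.X, ?_⟩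
    have h5 : Polynomial.derivative (Polynomial.X ^ 2 + 1 : Polynomial ℚ) = Polynomial.C 2 * Polynomial.X := by
      rw [Polynomial.derivative_add, Polynomial.derivative_X_pow, Polynomial.derivative_one, add_zero]
      norm_num
    rw [h5]
    have h6 : (Polynomial.C (1 / 2) * Polynomial.C 2 : Polynomial ℚ) = 1 := by
      rw [← Polynomial.C_mul]
      norm_num
    linear_combination (-Polynomial.X ^ 2) * h6
  · rw [h2]
    exact Pool.Agent.H936.Y.neg_pow_I_mem hKI i j
  · rw [h2]
    unfold Pool.Agent.H936.Y.del
    rw [Matrix.diagonal_apply_ne]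
    intro h3
    have h4 := congrArg Fin.val h3
    have h5 := i.2
    have h6 := j.2
    unfold snd fst at h4
    simp only at h4
    omega

end

/-- **The theorem.** -/
theorem result (g N D s : ℕ) :
    ∃ E : ℕ, ∀ H h w b₀ : ℕ, 2 ≤ H → (H + h + w) ^ E ≤ b₀ →
    -- the polynomials, and the branch points of the curves `y² = x f_j(x)`
    ∀ (f : Fin N → Polynomial ℤ) (e₀ : Fin N → Fin (2 * g + 1) → ℝ), (∀ j k, |(f j).coeff k| ≤ H) →
      (∀ j, BranchPoints (Polynomial.X * (f j).map (Int.castRingHom ℝ)) (e₀ j)) →
    -- the parameters `c_j / b_j`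
    ∀ (c : Fin N → ℤ) (b : Fin N → ℕ), (∀ j, c j ≠ 0 ∧ |c j| ≤ h) → (∀ j, b₀ ≤ b j ∧ b j ≤ b₀ + w) →
      (∀ i j, i ≠ j → ((H : ℤ) + h) ^ E ≤ |(b i : ℤ) - b j|) →
    -- the branch points of the curves `y² = f_j(x) (x - c_j / b_j)` are real
    ∃ e₁ : Fin N → Fin (2 * g + 1) → ℝ,
      (∀ j, BranchPoints ((f j).map (Int.castRingHom ℝ) * (Polynomial.X - Polynomial.C ((c j : ℝ) / b j))) (e₁ j)) ∧
    -- the points `o_j` and the coordinates of the points `z_j`
    ∀ (F : Fin N → Mat g) (y : Fin N → Matrix (Fin g) (Fin g) ℂ), (∀ j, IsFrame (F j)) →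
      (∀ j, IsCoordinate (F j) (curvePeriods (e₁ j)) (y j)) →
    -- 1: arbitrary points `o_j`
    (∀ u : Fin s → ℂ, (∀ j k l, AlgebraicOver D u (((F j)⁻¹ * curvePeriods (e₀ j)) k l)) →
      ∀ L : Set (Fin N → Matrix (Fin g) (Fin g) ℂ), (∀ q ∈ L, ∀ j k l, AlgebraicOver D u (q j k l)) → y ∈ Solutions L →
        Module.finrank ℂ (Tangent F) ≤
          Module.finrank ℂ (Solutions L ⊓ Tangent F : Submodule ℂ (Fin N → Matrix (Fin g) (Fin g) ℂ)) + s) ∧
    -- 2: special points
    ((∀ j, (g = 1 ∧ (f j).comp (-Polynomial.X) = f j ∨ HasCM D (curvePeriods (e₀ j))) ∧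
        CentreFrame (curvePeriods (e₀ j)) (F j)) →
      ∀ L : Set (Fin N → Matrix (Fin g) (Fin g) ℂ), (∀ q ∈ L, ∀ j k l, SmallDegree D (q j k l)) → y ∈ Solutions L →
        Tangent F ≤ Solutions L) := by
  obtain ⟨E₁, hE₁⟩ := Pool.Agent.H936.Y.mainZ (g := g) N s D
  obtain ⟨E₂, hE₂⟩ := Pool.Agent.H936.Y.mainZ (g := g) N 0 (max D 2)
  refine ⟨E₁ + E₂, fun H h w b₀ hH hbig f e₀ hht he₀ c b hc hb hsep => ?_⟩
  have hn : Even (2 * g) := even_two_mul g
  have hbig' : ∀ E, E ≤ E₁ + E₂ → (H + h + w) ^ E ≤ b₀ := fun E hE =>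
    (Nat.pow_le_pow_right (by omega) hE).trans hbig
  have hsep' : ∀ E, E ≤ E₁ + E₂ → ∀ i j, i ≠ j → (((H + h) ^ E : ℕ) : ℤ) ≤ |(b i : ℤ) - b j| := by
    intro E hE i j hij
    refine le_trans ?_ (hsep i j hij)
    have h1 : (H + h) ^ E ≤ (H + h) ^ (E₁ + E₂) := Nat.pow_le_pow_right (by omega) hE
    exact_mod_cast h1
  choose a m ha h0 hea hf using fun j => Pool.Agent.H936.Y.exists_gap (he₀ j).1 (he₀ j).2
  have hf' : ∀ j, (Pool.Agent.H936.Y.fq (f j)).map (algebraMap ℚ ℝ) = ∏ i, (Polynomial.X - Polynomial.C (a j i)) := by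
    intro j
    rw [← hf j]
    unfold Pool.Agent.H936.Y.fq
    rw [Polynomial.map_map]
    congr 1
  obtain ⟨hgap, h1⟩ := hE₁ H h w b₀ hH (hbig' _ (by omega)) f a m hht ha h0 hf' c b hc hb (hsep' _ (by omega))
  obtain ⟨-, h2⟩ := hE₂ H h w b₀ hH (hbig' _ (by omega)) f a m hht ha h0 hf' c b hc hb (hsep' _ (by omega))
  have hC : ∀ j, curvePeriods (e₀ j) = Pool.Agent.Y118.HP.CM (a j) (m j) 0 := by
    intro j
    rw [hea j]
    rfl
  have hCd : ∀ j, IsUnit (Pool.Agent.Y118.HP.CM (a j) (m j) 0).det := fun j =>
    Pool.Agent.H936.Y.CM_unit hn (ha j) (h0 j) (hf' j)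
  refine ⟨fun j => Pool.Agent.Y118.HP.er (a j) (m j) ((c j : ℝ) / b j), fun j =>
    ⟨Pool.Agent.Y118.HP.er_strictMono (ha j) (hgap j), ?_⟩, fun F y hFr hy => ?_⟩
  · rw [Pool.Agent.Y118.HP.prod_er, hf j]
  have hFd : ∀ j, IsUnit (F j).det := fun j => (Matrix.isUnit_iff_isUnit_det _).1 (hFr j).isUnit
  choose R hR using hy
  have hy' : ∀ j, Pool.Agent.Y118.HP.CM (a j) (m j) ((c j : ℝ) / b j) * Pool.Agent.H936.Z.i₁ g ℂ * R j =
      F j * (Pool.Agent.H936.Z.i₁ g ℂ + Pool.Agent.H936.Z.i₂ g ℂ * y j) := by
    intro j
    have h3 := hR j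
    rw [left_eq, left_eq, right_eq] at h3
    rw [Matrix.mul_add, ← Matrix.mul_assoc (F j)]
    exact h3
  have hsp : ∀ X ∈ (Submodule.pi Set.univ fun _ : Fin N => Pool.Agent.Helper880_LF.spS
      (Pool.Agent.Y119.HY.cm (polB (2 * g))⁻¹)), ∀ j, X j ∈ Pool.Agent.Helper880_LF.spS
      (Pool.Agent.Y119.HY.cm (Pool.Agent.Y118.HP.bm ℚ (2 * g))⁻¹) := fun X hX j =>
    (Submodule.mem_pi.1 hX) j (Set.mem_univ j)
  rw [tangent_eq]
  simp only [hC]
  refine ⟨fun u hu L hL hyL => ?_, fun hcm L hL hyL => ?_⟩
  · exact h1 _ hsp F hFd u hu y R hy' (Solutions L) L hL (fun _ => Iff.rfl) hyL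
  · have hFC : ∀ j k l, SmallDegree (max D 2) (((F j)⁻¹ * Pool.Agent.Y118.HP.CM (a j) (m j) 0) k l) := by
      intro j k l
      obtain ⟨h5, h3, β, h4⟩ := hcm j
      have h6 : HasCM (max D 2) (Pool.Agent.Y118.HP.CM (a j) (m j) 0) := by
        rcases h5 with ⟨h5, h6⟩ | ⟨K, hK, hKD, h7⟩
        · subst h5
          refine cm_even (le_max_right D 2) (ha j) (Pool.Agent.H936.Y.roots_even (ha j) (hf j) hn ?_) (h0 j) (hCd j)
          have h7 := congrArg (Polynomial.map (Int.castRingHom ℝ)) h6
          rwa [Polynomial.map_comp, Polynomial.map_neg, Polynomial.map_X] at h7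
        · exact ⟨K, hK, hKD.trans (le_max_left D 2), h7⟩
      obtain ⟨K, hK, hKD, α, hα, h7, h8⟩ := h6
      obtain ⟨S, hS⟩ := (hFr j).conj
      rw [cm_eq] at h7 h8
      rw [left_eq, left_eq] at h3
      rw [right_eq, right_eq, left_eq] at h4
      rw [left_eq, right_eq] at hS
      exact ⟨K, hK, hKD, Pool.Agent.H936.Z.frame_alg (hCd j) (hFd j) hα h7 h8 h3 h4 hS k l⟩
    have h3 := h2 _ hsp F hFd Fin.elim0
      (fun j k l => Pool.Agent.H936.V.Bd.ag (hFC j k l) _) y R hy' (Solutions L) L
      (fun q hq j k l => Pool.Agent.H936.V.Bd.ag (Pool.Agent.H936.X.Bd.mono (hL q hq j k l) (le_max_left D 2)) _)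
      (fun _ => Iff.rfl) hyL
    have h4 := Submodule.eq_of_le_of_finrank_le inf_le_right h3
    rw [← h4]
    exact inf_le_left

end Pool.Agent.Results.MP_1e27bd_ag.HyperellipticNearCM
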