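import Pool.Agent.H936.Z.Cmf
import Pool.Agent.H936.V.Ag

/-!
# The hyperbolic analytic subspace conjecture near special points

**The problem.** Let `S = Γ \ X` be a Shimura variety, `o ∈ X` a special point and `z ∈ X` a point with `[z] ∈ S(ℚ̄)`, in the
Harish-Chandra realisation `X = 𝒟 ⊆ T_o X`. If `z` is in a subspace `V` of `T_o X` which is rational for the arithmetic
structure, is there a subspace `V' ⊆ V` with `z ∈ V'` which is rational for both structures, for example the tangent space of a
Shimura subvariety which contains `[z]` and `[o]`?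

**Theorem.** We prove this, with such a `V'`, for *all* points `z` near `o` on families of abelian varieties through `[o]`, and
for all `V` which are given by equations with coefficients of bounded degree over `ℚ`; there are no exceptional points.

Let `S_1, …, S_N` be Shimura varieties of Hodge type, `S_j ⊆ 𝔸_g` (different or equal), and let `o_j ∈ X_j` be points. The
points of `X_j` are given by Hodge filtrations `F^1 ⊆ H^1(ℂ) = ℂ ^ {2g}`. The tangent space of `X_j` at `o_j` consists of the
operators `N` in the Lie algebra of the group of `S_j` which map `F^1_o` to its complex conjugate `F̄^1_o` and are zero on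
`F̄^1_o`; and the Harish-Chandra coordinate of `z` is the operator `N` with `F^1_z = (1 + N) F^1_o = exp(N) F^1_o`. A *frame*
`F_j = (F' | F'')` consists of bases of `F^1_o` and of `F̄^1_o`; then `N F' = F'' y`, and the entries of the `g × g`
matrix `y` are coordinates for `N`. If `F'` is a basis of the differentials of the first kind over a number field, and `F''` is
such a basis of `H^1_dR / F^1`, then these are coordinates for the arithmetic structure of `T_o X`, since the
tangent space of the moduli space is `Hom^sym(F^1, H^1_dR / F^1)` (Kodaira and Spencer).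

Let `A_{j,x}` be families of abelian varieties over `ℚ` with `m` parameters `x`, with period matrices `C_j Z_j(x)`, where `Z_j`
is a matrix of G-functions, `Z_j(0) = 1`, and the first `g` columns are the periods of the differentials of the first
kind. The size of these data is bounded by `q` and `B` (`Family`). We consider **all** these families and **all** the
points `x_j = a_j / b_j` with `a_j ∈ ℤ^m`, `|a_j| ≤ h`, and denominators `b_j` in a window `[b₀, b₀ + w]`, equal or
far from each other (`InWindow`), `b₀ ≥ (2 B (h + w + 2))^E`, where `E` depends only on `g`, `m`, `N`, `q`, `D`, `s`. Let `𝔤` be a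
space of infinitesimal symmetries of the `C_j Z_j` on the lines through `0` and `x_j`, for example the complex Lie algebra of the
product of the groups of the `S_j` if this is the algebraic monodromy group (there is no condition on points with different
denominators), or the Lie algebra of the group of a Shimura subvariety `S'` of the product. Let `T` (`Tangent`) be the
space of the tuples of the operators `N` as above which are in `𝔤`, the tangent space of `S'` at `o`. Let `y` be the
coordinate of `z = (z_1, …, z_N)`, where `z_j` is the point of `X_j` of the fibre at `x_j`.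

1. Let `F_j` be frames of *arbitrary* points `o_j`. If the entries of `F_j⁻¹ C_j` are algebraic over the field generated by `s`
   numbers `u_1, …, u_s`, then each subspace `V` with `y ∈ V` which is given by linear equations with coefficients which are
   algebraic over `ℚ(u)` (with equations of degree at most `D`) satisfies `dim (V ∩ T) ≥ dim T - s`. (In
   particular, of any number of tuples with denominators which are far from each other at most `s` have such subspaces
   `V ⊉ T`, as one sees if one applies this to the union of the tuples.)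
2. Let `o_j` be the **special point** of the central fibre `A_{j,0}`, which has complex multiplication (`HasCM`), and let `F_j` be
   the frame over the number field given by the basis of `H^1_dR(A_{j,0})` (`CentreFrame`). Then each subspace `V` with `y ∈ V`
   which is given by linear equations with coefficients in number fields of degree at most `D` contains `T`.

So the answer to Q1 is positive for these `z`, `V`, with `V' = T`, the tangent space of the Shimura subvariety `S'` as in Q2.

**Comparison.** An earlier theorem (`IntegralPointsOfFamilies`, in the library) treats one family with one parameter, and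
almost all integral points `1 / t`, without information on the exceptions. Here are no exceptions, the theorem is uniform
in the families, in the base point `o` and in the number of parameters, and it contains Shimura varieties of Hodge type.

**Proof** (`Pool/Agent/H936/Z`, `Pool/Agent/H885`). In the ultraproduct `ℂ^*` of a sequence of counterexamples, for each tuple of
operators in `𝔤` there is a derivation `δ` of `ℂ^*` over `ℚ^*` which moves the values `Z_j(x_j)` in the direction of this tuple:
by the theorem of Siegel, Chudnovsky, Bombieri and André on linear independence of values of G-functions in its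
uniform version for several families and points (`H885.curveP`) all relations of bounded degree between the values are
functional relations. If `δ` is zero on the `u_i`, then it is zero on `F_j⁻¹ C_j` and on the coefficients of `V`, and `δ(y)` is
the direction itself: so this direction satisfies the equations of `V`. The condition `δ(u) = 0` costs at most `s` dimensions.
In part 2 the matrix `F_j⁻¹ C_j` is algebraic, because the complex conjugate of `F^1_o` is stable under the endomorphism with
different eigenvalues, so the frame is given by the solution of a Sylvester equation over the number field.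
-/

set_option autoImplicit false

open PowerSeries Filter
open scoped Matrix

namespace Pool.Agent.Results.MP_1e27bd_ag.NearSpecialPoints

/-! ### Families -/

section several
variable {n m N : ℕ}

/-- an integer polynomial in `m` variables as a power series with rational coefficients -/
noncomputable def toQ (P : MvPolynomial (Fin m) ℤ) : MvPowerSeries (Fin m) ℚ :=
  ((P.map (Int.castRingHom ℚ) : MvPolynomial (Fin m) ℚ) : MvPowerSeries (Fin m) ℚ)

/-- the partial derivative `∂f / ∂x_i` -/
noncomputable def partialD (i : Fin m) (f : MvPowerSeries (Fin m) ℚ) : MvPowerSeries (Fin m) ℚ :=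
  fun ν => ((ν i : ℚ) + 1) * MvPowerSeries.coeff (ν + Finsupp.single i 1) f

/-- `Z` is an invertible `n × n` matrix of G-functions in `m` variables with rational coefficients, `W = Z⁻¹`, which
solves the system `T ∂Z / ∂x_i = Z A_i`, `i = 1, …, m`. The degrees of `T` and `A_i` are at most `q`; the
absolute values of their coefficients and the growth of the coefficients of `Z` and of the denominators of the
coefficients of `Z` and `W` are bounded by `B`. -/
structure Family (q : ℕ) (B : ℝ) (T : MvPolynomial (Fin m) ℤ) (A : Fin m → Fin n → Fin n → MvPolynomial (Fin m) ℤ)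
    (Z W : Matrix (Fin n) (Fin n) (MvPowerSeries (Fin m) ℚ)) : Prop where
  /-- the degree of `T` -/
  degT : T.totalDegree ≤ q
  /-- the height of `T` -/
  sizeT : ∀ ν, |((T.coeff ν : ℤ) : ℝ)| ≤ B
  /-- the degrees of the `A_i` -/
  degA : ∀ i a b, (A i a b).totalDegree ≤ q
  /-- the heights of the `A_i` -/
  sizeA : ∀ i a b ν, |(((A i a b).coeff ν : ℤ) : ℝ)| ≤ B
  /-- the differential equations -/
  ode : ∀ i a b, toQ T * partialD i (Z a b) = ∑ l, Z a l * toQ (A i l b)
  /-- `W` is the inverse of `Z` -/
  inv : W * Z = 1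
  /-- the growth of the coefficients -/
  size : ∀ a b (ν : Fin m →₀ ℕ), |((MvPowerSeries.coeff ν (Z a b) : ℚ) : ℝ)| ≤ B ^ (∑ i, ν i + 1)
  /-- the growth of the common denominators of the coefficients -/
  den : ∀ k : ℕ, ∃ d : ℕ, 0 < d ∧ (d : ℝ) ≤ B ^ (k + 1) ∧ ∀ a b (ν : Fin m →₀ ℕ), ∑ i, ν i ≤ k →
    (∃ z : ℤ, (d : ℚ) * MvPowerSeries.coeff ν (Z a b) = z) ∧ ∃ z : ℤ, (d : ℚ) * MvPowerSeries.coeff ν (W a b) = z

/-- the power series `f(x a)` in the variable `x`, the restriction of `f` to the line through `0` with direction `a` -/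
noncomputable def restrict (a : Fin m → ℤ) (f : MvPowerSeries (Fin m) ℚ) : PowerSeries ℚ :=
  PowerSeries.mk fun k => ∑ ν ∈ (Finset.univ : Finset (Fin m)).finsuppAntidiag k,
    MvPowerSeries.coeff ν f * ∏ i, (a i : ℚ) ^ ν i

/-- the value `Z(a / b)`, that is, the value of the restriction of `Z` to the line at `x = 1 / b` -/
noncomputable def value (Z : Matrix (Fin n) (Fin n) (MvPowerSeries (Fin m) ℚ)) (a : Fin m → ℤ) (b : ℕ) :
    Matrix (Fin n) (Fin n) ℂ :=
  Matrix.of fun i j => ((∑' k : ℕ, ((coeff k (restrict a (Z i j)) : ℚ) : ℝ) * (1 / (b : ℝ)) ^ k : ℝ) : ℂ)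

/-- the restriction of `Z` to the line with direction `a`, over `ℂ` -/
noncomputable def onLine (a : Fin m → ℤ) (Z : Matrix (Fin n) (Fin n) (MvPowerSeries (Fin m) ℚ)) :
    Matrix (Fin n) (Fin n) (PowerSeries ℂ) :=
  Z.map fun f => PowerSeries.map (algebraMap ℚ ℂ) (restrict a f)

/-- `(X_1, …, X_N)` is an infinitesimal symmetry of the matrices `Y_1, …, Y_N` of power series: for all polynomial relations
`R(x, Y_1(x), …, Y_N(x)) = 0` over `ℂ[x]` the derivative of `R(x, (1 + ε X_1) Y_1(x), …, (1 + ε X_N) Y_N(x))` at `ε = 0` is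
zero. -/
def Symmetry (Y : Fin N → Matrix (Fin n) (Fin n) (PowerSeries ℂ)) (X : Fin N → Matrix (Fin n) (Fin n) ℂ) : Prop :=
  ∀ R : MvPolynomial (Fin N × Fin n × Fin n) (Polynomial ℂ),
    MvPolynomial.aeval (fun σ => Y σ.1 σ.2.1 σ.2.2) R = 0 →
    ∑ σ, MvPolynomial.aeval (fun σ => Y σ.1 σ.2.1 σ.2.2) (MvPolynomial.pderiv σ R) *
      ((X σ.1).map (PowerSeries.C (R := ℂ)) * Y σ.1) σ.2.1 σ.2.2 = 0

end several


/-- the distance of the denominators `b` and `c` is larger than `2^(m+1) B (h + 2)` -/
def Far (m : ℕ) (B : ℝ) (h b c : ℕ) : Prop := 2 ^ (m + 1) * B * ((h : ℝ) + 2) < |(b : ℝ) - c|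

/-- the tuple `b` of denominators is in the window `[b₀, b₀ + w]`, and its members are equal or far from each other -/
def InWindow {N : ℕ} (m : ℕ) (B : ℝ) (h w b₀ : ℕ) (b : Fin N → ℕ) : Prop :=
  (∀ j, b₀ ≤ b j ∧ b j ≤ b₀ + w) ∧ ∀ i j, b i = b j ∨ Far m B h (b i) (b j)

/-! ### Numbers -/

/-- `x` is contained in a field of degree at most `D` over `ℚ` -/
def SmallDegree (D : ℕ) (x : ℂ) : Prop := ∃ K : Subfield ℂ, FiniteDimensional ℚ K ∧ Module.finrank ℚ K ≤ D ∧ x ∈ K

/-- `y` satisfies an equation `P(u, y) = 0` where `P` has rational coefficients and total degree at most `D` and `P(u, Y)` is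
not the zero polynomial -/
def AlgebraicOver (D : ℕ) {s : ℕ} (u : Fin s → ℂ) (y : ℂ) : Prop :=
  ∃ P : MvPolynomial (Option (Fin s)) ℚ, P.totalDegree ≤ D ∧
    MvPolynomial.aeval (fun o : Option (Fin s) => o.elim y u) P = 0 ∧
    ∃ y' : ℂ, MvPolynomial.aeval (fun o : Option (Fin s) => o.elim y' u) P ≠ 0

/-- Numbers which are algebraic over the field generated by the `u_i` have this property for some `D`. -/
theorem algebraicOver_of_isAlgebraic {s : ℕ} {u : Fin s → ℂ} {y : ℂ}
    (h : IsAlgebraic (IntermediateField.adjoin ℚ (Set.range u)) y) : ∃ D, AlgebraicOver D u y :=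
  Pool.Agent.H936.V.ag_of_alg h

/-! ### Points, frames and coordinates -/

section points
variable {g N : ℕ}

/-- square matrices of size `2 g` -/
abbrev Mat (g : ℕ) : Type := Matrix (Fin (2 * g)) (Fin (2 * g)) ℂ

/-- the first `g` indices -/
def fst (g : ℕ) (i : Fin g) : Fin (2 * g) := ⟨i, by omega⟩

/-- the last `g` indices -/
def snd (g : ℕ) (i : Fin g) : Fin (2 * g) := ⟨g + i, by omega⟩

/-- the first `g` columns -/
def left (P : Mat g) : Matrix (Fin (2 * g)) (Fin g) ℂ := P.submatrix id (fst g)

/-- the last `g` columns -/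
def right (P : Mat g) : Matrix (Fin (2 * g)) (Fin g) ℂ := P.submatrix id (snd g)

/-- `F` is a frame of a point `o`: the first `g` columns are a basis of the space `F^1_o ⊆ ℂ^{2g}`, and the last `g` columns
are a basis of the complex conjugate space, which is a complement. -/
structure IsFrame (F : Mat g) : Prop where
  /-- the columns are linearly independent -/
  isUnit : IsUnit F
  /-- the complex conjugate of `F^1_o` is the span of the last `g` columns -/
  conj : ∃ S : Matrix (Fin g) (Fin g) ℂ, (left F).map (starRingEnd ℂ) = right F * S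

/-- The operator `N` on `ℂ^{2g}` which maps the first `g` columns `F'` of the frame to `F'' y`, where `F''` are the last `g`
columns, and is zero on these: an element of `Hom (F^1_o, F̄^1_o)`. -/
noncomputable def operator (F : Mat g) (y : Matrix (Fin g) (Fin g) ℂ) : Mat g :=
  right F * y * (F⁻¹).submatrix (fst g) id

theorem operator_left {F : Mat g} (hF : IsUnit F) (y : Matrix (Fin g) (Fin g) ℂ) : operator F y * left F = right F * y := by
  have h1 := Matrix.nonsing_inv_mul _ ((Matrix.isUnit_iff_isUnit_det _).1 hF)
  have h2 : (F⁻¹).submatrix (fst g) id * left F = 1 := by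
    ext i j
    have h3 := congrFun (congrFun h1 (fst g i)) (fst g j)
    rw [Matrix.mul_apply] at h3 ⊢
    refine Eq.trans h3 ?_
    rw [Matrix.one_apply, Matrix.one_apply]
    by_cases hij : i = j
    · rw [if_pos hij, if_pos (congrArg _ hij)]
    · rw [if_neg hij, if_neg (show ¬ fst g i = fst g j from fun h => hij (Pool.Agent.H936.Z.f₁_inj h))]
  unfold operator
  rw [Matrix.mul_assoc, h2, Matrix.mul_one]

theorem operator_right {F : Mat g} (hF : IsUnit F) (y : Matrix (Fin g) (Fin g) ℂ) : operator F y * right F = 0 := by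
  have h1 := Matrix.nonsing_inv_mul _ ((Matrix.isUnit_iff_isUnit_det _).1 hF)
  have h2 : (F⁻¹).submatrix (fst g) id * right F = 0 := by
    ext i j
    have h3 := congrFun (congrFun h1 (fst g i)) (snd g j)
    rw [Matrix.mul_apply] at h3 ⊢
    refine Eq.trans h3 ?_
    rw [Matrix.one_apply, if_neg (show ¬ fst g i = snd g j from fun h => Pool.Agent.H936.Z.f₁_ne h)]
    rfl
  unfold operator
  rw [Matrix.mul_assoc, h2, Matrix.mul_zero]

/-- The tangent space at `(o_1, …, o_N)`, in the coordinates of the frames `F_j`: the tuples of matrices for which the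
tuple of the operators is in `𝔤`. -/
noncomputable def Tangent (𝔤 : Submodule ℂ (Fin N → Mat g)) (F : Fin N → Mat g) :
    Submodule ℂ (Fin N → Matrix (Fin g) (Fin g) ℂ) where
  carrier := {y | (fun j => operator (F j) (y j)) ∈ 𝔤}
  zero_mem' := by
    have h : (fun j => operator (F j) ((0 : Fin N → Matrix (Fin g) (Fin g) ℂ) j)) = 0 := by
      funext j
      unfold operator
      rw [Pi.zero_apply, Matrix.mul_zero, Matrix.zero_mul]
      rfl
    show _ ∈ 𝔤
    rw [h]
    exact 𝔤.zero_mem
  add_mem' {a b} ha hb := by
    have h : (fun j => operator (F j) ((a + b) j)) = (fun j => operator (F j) (a j)) + fun j => operator (F j) (b j) := by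
      funext j
      unfold operator
      rw [Pi.add_apply, Pi.add_apply, Matrix.mul_add, Matrix.add_mul]
    show _ ∈ 𝔤
    rw [h]
    exact 𝔤.add_mem ha hb
  smul_mem' c a ha := by
    have h : (fun j => operator (F j) ((c • a) j)) = c • fun j => operator (F j) (a j) := by
      funext j
      unfold operator
      rw [Pi.smul_apply, Pi.smul_apply, Matrix.mul_smul, Matrix.smul_mul]
    show _ ∈ 𝔤
    rw [h]
    exact 𝔤.smul_mem c ha

/-- `y` is the Harish-Chandra coordinate, for the frame `F` of `o`, of the point `z` with the period matrix `P`: the space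
`F^1_z`, which is spanned by the first `g` columns of `P`, is the image of `F^1_o` under `1 + N`, where `N` is the operator with
the matrix `y`; that is, the columns of `F' + N F' = F' + F'' y` are combinations of the first `g` columns of `P`. -/
def IsCoordinate (F P : Mat g) (y : Matrix (Fin g) (Fin g) ℂ) : Prop :=
  ∃ R : Matrix (Fin g) (Fin g) ℂ, left P * R = left F + right F * y

/-- The subspace given by the linear equations `∑ c_{jkl} y_{jkl} = 0` for all `c` in `L`. -/
def Solutions (L : Set (Fin N → Matrix (Fin g) (Fin g) ℂ)) : Submodule ℂ (Fin N → Matrix (Fin g) (Fin g) ℂ) where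
  carrier := {y | ∀ c ∈ L, ∑ j, ∑ k, ∑ l, c j k l * y j k l = 0}
  zero_mem' c hc := by simp
  add_mem' {a b} ha hb c hc := by
    have h1 := ha c hc
    have h2 := hb c hc
    simp only [Pi.add_apply, Matrix.add_apply, mul_add, Finset.sum_add_distrib]
    rw [h1, h2, add_zero]
  smul_mem' x a ha c hc := by
    have h1 := ha c hc
    have h2 : ∀ j k l, c j k l * (x • a) j k l = x * (c j k l * a j k l) := by
      intro j k l
      rw [Pi.smul_apply, Matrix.smul_apply, smul_eq_mul]
      ring
    simp only [h2, ← Finset.mul_sum]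
    rw [h1, mul_zero]

/-- The elements of `𝔤` are infinitesimal symmetries: for all tuples `X` in `𝔤` and all numbers `c`, the `C_j⁻¹ X_j C_j` with
`b_j = c` respect the relations between the restrictions of the matrices `Z_j` with `b_j = c` to the lines through `0` with
directions `a_j`. It is sufficient that `𝔤` is in the Lie algebra of the algebraic monodromy group of the sum of these
families on the lines, for each `c`; there is no condition on points with different denominators. -/
def Symmetries {m : ℕ} (𝔤 : Submodule ℂ (Fin N → Mat g)) (C : Fin N → Mat g) (b : Fin N → ℕ)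
    (a : Fin N → Fin m → ℤ) (Z : Fin N → Matrix (Fin (2 * g)) (Fin (2 * g)) (MvPowerSeries (Fin m) ℚ)) : Prop :=
  ∀ X ∈ 𝔤, ∀ c : ℕ, Symmetry (fun j => if b j = c then onLine (a j) (Z j) else 1)
    (fun j => if b j = c then (C j)⁻¹ * X j * C j else 0)

/-- Complex multiplication: there is a rational matrix `α`, an endomorphism in terms of its action on `H^1`, with `2 g` different
eigenvalues, which respects the de Rham structure over a field `K` of degree at most `D` (its matrix `C⁻¹ α C` on `H^1_dR` has
entries in `K`) and the Hodge filtration (this matrix maps the span of the first `g` basis vectors to itself). -/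
def HasCM (D : ℕ) (C : Mat g) : Prop :=
  ∃ K : Subfield ℂ, FiniteDimensional ℚ K ∧ Module.finrank ℚ K ≤ D ∧
    ∃ α : Matrix (Fin (2 * g)) (Fin (2 * g)) ℚ, α.charpoly.Separable ∧
      (∀ i j, (C⁻¹ * α.map (fun x : ℚ => (x : ℂ)) * C) i j ∈ K) ∧
      ∀ i j, (C⁻¹ * α.map (fun x : ℚ => (x : ℂ)) * C) (snd g i) (fst g j) = 0

/-- `F` is the frame, of the point given by `C`, for the arithmetic structure: the first `g` columns are those of `C` (the
differentials of the first kind), and the last `g` columns are, up to combinations of the first ones, those of `C` (a basis of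
`H^1_dR / F^1`). -/
def CentreFrame (C F : Mat g) : Prop :=
  left F = left C ∧ ∃ b : Matrix (Fin g) (Fin g) ℂ, right F = right C + left C * b

end points

/-! ### Auxiliary lemmas -/

theorem base_of {m n q : ℕ} {B : ℝ} (hB : 1 ≤ B) {T : MvPolynomial (Fin m) ℤ}
    {A : Fin m → Fin n → Fin n → MvPolynomial (Fin m) ℤ} {Z W : Matrix (Fin n) (Fin n) (MvPowerSeries (Fin m) ℚ)}
    (h : Family q B T A Z W) :
    Pool.Agent.H885.GBaseU (N := 1) q B T (fun _ => A) (fun _ => Z) (fun _ => W) :=
  ⟨hB, h.degT, h.sizeT, fun _ => h.degA, fun _ => h.sizeA, fun _ => h.ode, fun _ => h.inv, fun _ => h.size, fun k => by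
    obtain ⟨d, h1, h2, h3⟩ := h.den k
    exact ⟨d, h1, h2, fun _ => h3⟩⟩

theorem sym_inf {m n N : ℕ} {Z : Fin N → Matrix (Fin n) (Fin n) (MvPowerSeries (Fin m) ℚ)} {a : Fin N → Fin m → ℤ}
    {b : Fin N → ℕ} {β : ℕ} {X : Fin N → Matrix (Fin n) (Fin n) ℂ}
    (h : Symmetry (fun j => if b j = β then onLine (a j) (Z j) else 1) (fun j => if b j = β then X j else 0)) :
    Pool.Agent.H885.InfT (Pool.Agent.H885.part b (fun j => Pool.Agent.H885.lineM (a j) (Z j)) β)
      (fun j => if b j = β then X j else 0) := by
  have h1 : Pool.Agent.H885.cent (Pool.Agent.H885.part b (fun j => Pool.Agent.H885.lineM (a j) (Z j)) β) =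
      fun σ : Fin N × Fin n × Fin n => (if b σ.1 = β then onLine (a σ.1) (Z σ.1) else 1) σ.2.1 σ.2.2 := by
    funext σ
    unfold Pool.Agent.H885.cent Pool.Agent.H885.part
    by_cases hb : b σ.1 = β
    · rw [if_pos hb, if_pos hb]
      rfl
    · rw [if_neg hb, if_neg hb, Matrix.one_apply, Matrix.one_apply]
      split_ifs
      · exact map_one _
      · exact map_zero _
  intro R hR
  rw [h1] at hR ⊢
  refine Eq.trans ?_ (h R hR)
  refine Finset.sum_congr rfl fun σ _ => ?_
  rw [Matrix.mul_apply]
  rfl

section
variable {g N : ℕ}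

theorem left_eq (P : Mat g) : left P = P * Pool.Agent.H936.Z.i₁ g ℂ := (Pool.Agent.H936.Z.mul_i₁ P).symm

theorem right_eq (P : Mat g) : right P = P * Pool.Agent.H936.Z.i₂ g ℂ := (Pool.Agent.H936.Z.mul_i₂ P).symm

theorem rows_eq (P : Mat g) : P.submatrix (fst g) id = (Pool.Agent.H936.Z.i₁ g ℂ)ᵀ * P := by
  have h1 := Pool.Agent.H936.Z.mul_i₁ (g := g) Pᵀ
  have h2 := congrArg Matrix.transpose h1
  rw [Matrix.transpose_mul, Matrix.transpose_transpose] at h2
  exact h2.symm

theorem operator_eq (F : Mat g) (y : Matrix (Fin g) (Fin g) ℂ) : operator F y =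
    F * (Pool.Agent.H936.Z.i₂ g ℂ * y * (Pool.Agent.H936.Z.i₁ g ℂ)ᵀ) * F⁻¹ := by
  unfold operator
  rw [right_eq, rows_eq]
  simp only [Matrix.mul_assoc]

theorem tangent_eq (𝔤 : Submodule ℂ (Fin N → Mat g)) (F : Fin N → Mat g) :
    Tangent 𝔤 F = Pool.Agent.H936.Z.Tan 𝔤 F := by
  ext y
  show (fun j => operator (F j) (y j)) ∈ 𝔤 ↔ _
  simp only [operator_eq]
  rfl

theorem cm_eq (α : Matrix (Fin (2 * g)) (Fin (2 * g)) ℚ) :
    α.map (fun x : ℚ => (x : ℂ)) = Pool.Agent.Y119.HY.cm α := by
  ext i j
  rw [Pool.Agent.Y119.HY.cm_apply]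
  rfl

end

/-- **The theorem.** -/
theorem result (g m N q D s : ℕ) :
    ∃ E : ℕ, ∀ (B : ℝ) (h w b₀ : ℕ), 1 ≤ B → (2 * B * ((h : ℝ) + w + 2)) ^ E ≤ (b₀ : ℝ) →
    -- the families and the points
    ∀ (T : Fin N → MvPolynomial (Fin m) ℤ) (A : Fin N → Fin m → Fin (2 * g) → Fin (2 * g) → MvPolynomial (Fin m) ℤ)
      (Z W : Fin N → Matrix (Fin (2 * g)) (Fin (2 * g)) (MvPowerSeries (Fin m) ℚ)),
      (∀ j, Family q B (T j) (A j) (Z j) (W j)) →
    ∀ (a : Fin N → Fin m → ℤ) (b : Fin N → ℕ), (∀ j i, |a j i| ≤ h) → (∀ j, restrict (a j) (toQ (T j)) ≠ 0) →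
      InWindow m B h w b₀ b →
    -- the matrices of the periods of the central fibres, and the symmetries
    ∀ (C : Fin N → Mat g) (𝔤 : Submodule ℂ (Fin N → Mat g)), (∀ j, IsUnit (C j)) → Symmetries 𝔤 C b a Z →
    -- the points `o_j` and the coordinates
    ∀ (F : Fin N → Mat g) (y : Fin N → Matrix (Fin g) (Fin g) ℂ), (∀ j, IsFrame (F j)) →
      (∀ j, IsCoordinate (F j) (C j * value (Z j) (a j) (b j)) (y j)) →
    -- 1: arbitrary points `o_j`
    (∀ u : Fin s → ℂ, (∀ j k l, AlgebraicOver D u (((F j)⁻¹ * C j) k l)) →
      ∀ L : Set (Fin N → Matrix (Fin g) (Fin g) ℂ), (∀ c ∈ L, ∀ j k l, AlgebraicOver D u (c j k l)) → y ∈ Solutions L →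
        Module.finrank ℂ (Tangent 𝔤 F) ≤
          Module.finrank ℂ (Solutions L ⊓ Tangent 𝔤 F : Submodule ℂ (Fin N → Matrix (Fin g) (Fin g) ℂ)) + s) ∧
    -- 2: special points
    ((∀ j, HasCM D (C j) ∧ CentreFrame (C j) (F j)) →
      ∀ L : Set (Fin N → Matrix (Fin g) (Fin g) ℂ), (∀ c ∈ L, ∀ j k l, SmallDegree D (c j k l)) → y ∈ Solutions L →
        Tangent 𝔤 F ≤ Solutions L) := by
  obtain ⟨E₁, hE₁⟩ := Pool.Agent.H936.Z.uniT g m N q s D
  obtain ⟨E₂, hE₂⟩ := Pool.Agent.H936.Z.uniT g m N q 0 D
  refine ⟨E₁ + E₂, fun B h w b₀ hB hbig T A Z W hF a b ha hTa hb C 𝔤 hC hI F y hFr hy => ?_⟩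
  have hx1 : (1 : ℝ) ≤ 2 * B * ((h : ℝ) + w + 2) := by
    have hh0 : (0 : ℝ) ≤ h := by positivity
    have hw0 : (0 : ℝ) ≤ w := by positivity
    nlinarith
  have hbig' : ∀ E, E ≤ E₁ + E₂ → (2 * B * ((h : ℝ) + w + 2)) ^ E ≤ (b₀ : ℝ) := fun E hE =>
    (pow_le_pow_right₀ hx1 hE).trans hbig
  have hCd : ∀ j, IsUnit (C j).det := fun j => (Matrix.isUnit_iff_isUnit_det _).1 (hC j)
  have hFd : ∀ j, IsUnit (F j).det := fun j => (Matrix.isUnit_iff_isUnit_det _).1 (hFr j).isUnit
  choose R hR using hy
  have hy' : ∀ j, C j * Pool.Agent.Y118.HV.Hv (Pool.Agent.H885.lineM (a j) (Z j)) (b j) * Pool.Agent.H936.Z.i₁ g ℂ * R j =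
      F j * (Pool.Agent.H936.Z.i₁ g ℂ + Pool.Agent.H936.Z.i₂ g ℂ * y j) := by
    intro j
    have h1 := hR j
    rw [left_eq, left_eq, right_eq] at h1
    rw [Matrix.mul_add, ← Matrix.mul_assoc (F j)]
    exact h1
  rw [tangent_eq]
  refine ⟨fun u hu L hL hyL => ?_, fun hcm L hL hyL => ?_⟩
  · exact hE₁ B h w b₀ hB (hbig' _ (by omega)) 𝔤 C b hb.1 hb.2 T A Z W a (fun j => base_of hB (hF j)) ha hTa
      (fun X hX β => sym_inf (X := fun j => (C j)⁻¹ * X j * C j) (hI X hX β)) hCd F hFd u hu y R hy' (Solutions L) L hL
      (fun _ => Iff.rfl) hyL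
  · have hFC : ∀ j k l, SmallDegree D (((F j)⁻¹ * C j) k l) := by
      intro j k l
      obtain ⟨⟨K, hK, hKD, α, hα, h1, h2⟩, h3, β, h4⟩ := hcm j
      obtain ⟨S, hS⟩ := (hFr j).conj
      rw [cm_eq] at h1 h2
      rw [left_eq, left_eq] at h3
      rw [right_eq, right_eq, left_eq] at h4
      rw [left_eq, right_eq] at hS
      exact ⟨K, hK, hKD, Pool.Agent.H936.Z.frame_alg (hCd j) (hFd j) hα h1 h2 h3 h4 hS k l⟩
    have h1 := hE₂ B h w b₀ hB (hbig' _ (by omega)) 𝔤 C b hb.1 hb.2 T A Z W a (fun j => base_of hB (hF j)) ha hTa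
      (fun X hX β => sym_inf (X := fun j => (C j)⁻¹ * X j * C j) (hI X hX β)) hCd F hFd Fin.elim0
      (fun j k l => Pool.Agent.H936.V.Bd.ag (hFC j k l) _) y R hy' (Solutions L) L
      (fun c hc j k l => Pool.Agent.H936.V.Bd.ag (hL c hc j k l) _) (fun _ => Iff.rfl) hyL
    have h2 : (Solutions L ⊓ Pool.Agent.H936.Z.Tan 𝔤 F : Submodule ℂ (Fin N → Matrix (Fin g) (Fin g) ℂ)) =
        Pool.Agent.H936.Z.Tan 𝔤 F := Submodule.eq_of_le_of_finrank_le inf_le_right h1
    rw [← h2]
    exact inf_le_left

end Pool.Agent.Results.MP_1e27bd_ag.NearSpecialPoints
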